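import Pool.Agent.V11001.KM.Near

/-! Sets of natural numbers. -/

set_option autoImplicit false

open Finset Filter Topology MeasureTheory

namespace Pool.Agent.V11001.KM

open Classical in
/-- from natural bounds to real bounds -/
theorem count_of_nat (P : Set ℕ) {s ε : ℝ} (hs : 0 ≤ s) (hε : 0 < ε)
    (hP : ∃ C : ℝ, ∀ X : ℕ, 1 ≤ X → (((Ioc 0 X).filter (fun t => t ∈ P)).card : ℝ) ≤ C * (X : ℝ) ^ (s + ε)) :
    ∃ C : ℝ, ∀ X : ℝ, 1 ≤ X → {t : ℕ | t ∈ P ∧ (t : ℝ) ≤ X}.Finite ∧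
      ({t : ℕ | t ∈ P ∧ (t : ℝ) ≤ X}.ncard : ℝ) ≤ C * X ^ (s + ε) := by
  obtain ⟨C, hC⟩ := hP
  refine ⟨|C| + 1, fun X hX => ?_⟩
  have hX1 : 1 ≤ ⌊X⌋₊ := Nat.le_floor (by exact_mod_cast hX)
  have hsub : {t : ℕ | t ∈ P ∧ (t : ℝ) ≤ X} ⊆
      (((Ioc 0 ⌊X⌋₊).filter (fun t => t ∈ P) ∪ {0} : Finset ℕ) : Set ℕ) := by
    rintro t ⟨ht, htX⟩
    rw [mem_coe, mem_union, mem_filter, mem_Ioc, mem_singleton]
    rcases Nat.eq_zero_or_pos t with h0 | h0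
    · exact Or.inr h0
    · exact Or.inl ⟨⟨h0, Nat.le_floor htX⟩, ht⟩
  refine ⟨(Finset.finite_toSet _).subset hsub, ?_⟩
  have h1 := Set.ncard_le_ncard hsub (Finset.finite_toSet _)
  rw [Set.ncard_coe_finset] at h1
  have h2 := h1.trans (Finset.card_union_le _ _)
  rw [card_singleton] at h2
  have h3 : ({t : ℕ | t ∈ P ∧ (t : ℝ) ≤ X}.ncard : ℝ) ≤ (((Ioc 0 ⌊X⌋₊).filter (fun t => t ∈ P)).card : ℝ) + 1 := by
    exact_mod_cast h2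
  have h4 := hC ⌊X⌋₊ hX1
  have h5 : ((⌊X⌋₊ : ℕ) : ℝ) ^ (s + ε) ≤ X ^ (s + ε) :=
    Real.rpow_le_rpow (Nat.cast_nonneg _) (Nat.floor_le (by linarith)) (by positivity)
  have h6 : C * ((⌊X⌋₊ : ℕ) : ℝ) ^ (s + ε) ≤ |C| * X ^ (s + ε) :=
    (mul_le_mul_of_nonneg_right (le_abs_self C) (by positivity)).trans
      (mul_le_mul_of_nonneg_left h5 (abs_nonneg C))
  have h7 : (1 : ℝ) ≤ X ^ (s + ε) := Real.one_le_rpow hX (by positivity)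
  nlinarith

end Pool.Agent.V11001.KM
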