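import Pool.Agent.H107.AbcWin
import Pool.Agent.V11001.KM.Family

set_option autoImplicit false

/-! abc triples of small radical near powers of almost every base. -/

namespace Pool.Agent.V11001.KM.Abc

open Filter Pool.Agent.H107.AbcWin

lemma F_cont : Continuous F := by
  unfold F
  refine Continuous.if_le (by fun_prop) ?_ continuous_id continuous_const ?_
  · refine Continuous.if_le (by fun_prop) ?_ continuous_id continuous_const ?_
    · refine Continuous.if_le (by fun_prop) ?_ continuous_id continuous_const ?_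
      · refine Continuous.if_le (by fun_prop) ?_ continuous_id continuous_const ?_
        · exact Continuous.if_le (by fun_prop) (by fun_prop) continuous_id continuous_const (by
            intro x hx; rw [hx]; norm_num)
        · intro x hx
          rw [hx]
          norm_num
      · intro x hx
        rw [hx]
        norm_num
    · intro x hx
      rw [hx]
      norm_num
  · intro x hx
    rw [hx]
    norm_num

/-- for each exponent and each `θ` outside of a set of dimension at most `F lam / (1 - θ)` -/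
theorem dim {ν : ℕ → ℝ} (hν : Tendsto (fun n : ℕ => ν n / Real.log n) atTop atTop) (B : Set ℝ) (hB : B.Countable)
    (lam θ : ℝ) (hlam : 0 < lam) (hθ : θ < 1) :
    ∃ E : Set ℝ, dimH E ≤ ENNReal.ofReal (F lam / (1 - θ)) ∧
      ∀ x : ℝ, 1 < x → x ∉ E → ∀ β ∈ B, 0 < β → ∀ K : ℝ,
        {t : ℕ × ℕ × ℕ | t ∈ Exc K lam ∧ ∃ n : ℕ, |((t.2.2 : ℕ) : ℝ) - β * x ^ ν n| ≤ x ^ (θ * ν n)}.Finite := by
  obtain ⟨E, h1, h2⟩ := family (fun t : ℕ × ℕ × ℕ => ((t.2.2 : ℕ) : ℝ)) hν (F_nonneg hlam) hθ B hB (J := ℕ)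
    (fun j => Exc j lam) (fun j ε hε => count lam j hlam ε hε)
  refine ⟨E, h1, fun x hx hxE β hβ hβ0 K => ?_⟩
  obtain ⟨j, hj⟩ := exists_nat_ge K
  refine (h2 x hx hxE β hβ hβ0 j).subset ?_
  rintro t ⟨⟨g1, g2, g3, g4, g5⟩, g6⟩
  exact ⟨⟨g1, g2, g3, g4, g5.trans (mul_le_mul_of_nonneg_right hj (Real.rpow_nonneg (Nat.cast_nonneg _) _))⟩, g6⟩

/-- for almost every base, all exponents and all `θ` at once -/
theorem ae {ν : ℕ → ℝ} (hν : Tendsto (fun n : ℕ => ν n / Real.log n) atTop atTop) (B : Set ℝ) (hB : B.Countable) :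
    ∀ᵐ x : ℝ, 1 < x → ∀ lam θ : ℝ, 0 < lam → F lam + θ < 1 → ∀ β ∈ B, 0 < β → ∀ K : ℝ,
      {t : ℕ × ℕ × ℕ | t ∈ Exc K lam ∧ ∃ n : ℕ, |((t.2.2 : ℕ) : ℝ) - β * x ^ ν n| ≤ x ^ (θ * ν n)}.Finite := by
  have hall : ∀ q : ℚ, ∀ᵐ x : ℝ, 0 < (q : ℝ) → 1 < x → ∀ θ : ℝ, θ < 1 - F q → ∀ β ∈ B, 0 < β → ∀ j : ℕ,
      {t : ℕ × ℕ × ℕ | t ∈ Exc j q ∧ ∃ n : ℕ, |((t.2.2 : ℕ) : ℝ) - β * x ^ ν n| ≤ x ^ (θ * ν n)}.Finite := by
    intro q
    by_cases hq : 0 < (q : ℝ)
    · filter_upwards [ae_family (fun t : ℕ × ℕ × ℕ => ((t.2.2 : ℕ) : ℝ)) hν (F_nonneg hq) B hB (J := ℕ)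
        (fun j => Exc j q) (fun j ε hε => count q j hq ε hε)] with z hz _
      exact hz
    · exact Filter.Eventually.of_forall fun z h => absurd h hq
  rw [← MeasureTheory.ae_all_iff] at hall
  filter_upwards [hall] with x hx hx1 lam θ hlam hθ β hβ hβ0 K
  obtain ⟨q, hq0, hq1, hq2⟩ : ∃ q : ℚ, 0 < (q : ℝ) ∧ lam < (q : ℝ) ∧ F q + θ < 1 := by
    have hcont : Continuous (fun t : ℝ => F t + θ) := F_cont.add continuous_const
    have hev : ∀ᶠ t in nhds lam, F t + θ < 1 := hcont.continuousAt.eventually_lt continuousAt_const hθ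
    obtain ⟨η, hη, hball⟩ := Metric.eventually_nhds_iff.1 hev
    obtain ⟨q, h1, h2⟩ := exists_rat_btwn (show lam < lam + η by linarith)
    refine ⟨q, hlam.trans h1, h1, hball ?_⟩
    rw [Real.dist_eq, abs_lt]
    constructor <;> linarith
  obtain ⟨j, hj⟩ := exists_nat_ge K
  refine (hx q hq0 hx1 θ (by linarith) β hβ hβ0 j).subset ?_
  rintro t ⟨⟨g1, g2, g3, g4, g5⟩, g6⟩
  refine ⟨⟨g1, g2, g3, g4, ?_⟩, g6⟩
  have hc : (1 : ℝ) ≤ ((t.2.2 : ℕ) : ℝ) := by
    have : 1 ≤ t.2.2 := by omega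
    exact_mod_cast this
  calc (R (t.1 * t.2.1 * t.2.2) : ℝ) ≤ K * ((t.2.2 : ℕ) : ℝ) ^ lam := g5
    _ ≤ j * ((t.2.2 : ℕ) : ℝ) ^ lam := mul_le_mul_of_nonneg_right hj (Real.rpow_nonneg (by linarith) _)
    _ ≤ j * ((t.2.2 : ℕ) : ℝ) ^ (q : ℝ) :=
        mul_le_mul_of_nonneg_left (Real.rpow_le_rpow_of_exponent_le hc hq1.le) (Nat.cast_nonneg _)

/-- the weak abc inequality near the powers of all bases outside of a set of dimension zero -/
theorem weak {ν : ℕ → ℝ} (hν : Tendsto (fun n : ℕ => ν n / Real.log n) atTop atTop) (B : Set ℝ) (hB : B.Countable) :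
    ∃ E : Set ℝ, dimH E = 0 ∧ ∀ x : ℝ, 1 < x → x ∉ E → ∀ θ : ℝ, θ < 1 → ∀ β ∈ B, 0 < β →
      ∃ M : ℝ, 0 < M ∧ ∀ a b c : ℕ, 0 < a → 0 < b → Nat.Coprime a b → a + b = c →
        (∃ n : ℕ, |(c : ℝ) - β * x ^ ν n| ≤ x ^ (θ * ν n)) → (c : ℝ) < (R (a * b * c) : ℝ) ^ M := by
  have hθm : ∀ m : ℕ, 1 - 1 / ((m : ℝ) + 1) < 1 := fun m => by
    have : (0 : ℝ) < 1 / ((m : ℝ) + 1) := by positivity
    linarith
  have hall : ∀ k m : ℕ, _ := fun k m : ℕ =>
    dim hν B hB (1 / ((k : ℝ) + 2)) (1 - 1 / ((m : ℝ) + 1)) (by positivity) (hθm m)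
  choose E hE1 hE2 using hall
  refine ⟨⋃ m, ⋂ k, E k m, ?_, fun x hx hxE θ hθ β hβ hβ0 => ?_⟩
  · rw [dimH_iUnion, ENNReal.iSup_eq_zero]
    intro m
    have hm0 : (0 : ℝ) < 1 / ((m : ℝ) + 1) := by positivity
    have h1 : ∀ k : ℕ, dimH (⋂ k, E k m) ≤
        ENNReal.ofReal ((4 / 7 * (1 / ((k : ℝ) + 1))) / (1 / ((m : ℝ) + 1))) := by
      intro k
      refine (dimH_mono (Set.iInter_subset _ k)).trans ((hE1 k m).trans (ENNReal.ofReal_le_ofReal ?_))
      rw [sub_sub_cancel]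
      apply div_le_div_of_nonneg_right _ hm0.le
      have h2 : F (1 / ((k : ℝ) + 2)) = 4 * (1 / ((k : ℝ) + 2)) / 7 := by
        unfold F
        rw [if_pos]
        rw [div_le_div_iff₀ (by positivity) (by norm_num)]
        have : (0 : ℝ) ≤ k := Nat.cast_nonneg k
        linarith
      have h3 : 1 / ((k : ℝ) + 2) ≤ 1 / ((k : ℝ) + 1) := by
        apply one_div_le_one_div_of_le (by positivity)
        linarith
      rw [h2]
      linarith
    have h2 : Filter.Tendsto (fun k : ℕ => ENNReal.ofReal ((4 / 7 * (1 / ((k : ℝ) + 1))) / (1 / ((m : ℝ) + 1))))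
        Filter.atTop (nhds (ENNReal.ofReal ((4 / 7 * 0) / (1 / ((m : ℝ) + 1))))) := by
      apply ENNReal.tendsto_ofReal
      exact ((tendsto_one_div_add_atTop_nhds_zero_nat (𝕜 := ℝ)).const_mul (4 / 7)).div_const _
    rw [mul_zero, zero_div, ENNReal.ofReal_zero] at h2
    exact le_antisymm (ge_of_tendsto' h2 h1) bot_le
  · obtain ⟨m, hm⟩ := exists_nat_one_div_lt (sub_pos.2 hθ)
    have hxm : x ∉ ⋂ k, E k m := fun h => hxE (Set.mem_iUnion.2 ⟨m, h⟩)
    rw [Set.mem_iInter, not_forall] at hxm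
    obtain ⟨k, hk⟩ := hxm
    have hk2 : (0 : ℝ) < (k : ℝ) + 2 := by positivity
    -- the finitely many windows with a negative exponent and the finitely many exceptions
    have hfin := hE2 k m x hx hk β hβ hβ0 1
    obtain ⟨n1, hn1⟩ := ((tendsto_lam hν).eventually_ge_atTop 0).exists_forall_of_atTop
    -- a bound for all `c` which are not covered
    obtain ⟨C1, hC1⟩ := (hfin.image (fun t : ℕ × ℕ × ℕ => t.2.2)).bddAbove
    set C2 : ℝ := ∑ n ∈ Finset.range n1, (β * x ^ ν n + x ^ (θ * ν n)) with hC2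
    have hx0 : 0 < x := by linarith
    set N : ℝ := max 2 (max (C1 : ℝ) C2) + 1 with hN
    have hN2 : 3 ≤ N := by
      have := le_max_left (2 : ℝ) (max (C1 : ℝ) C2)
      linarith
    have hlog2 : 0 < Real.log 2 := Real.log_pos one_lt_two
    refine ⟨max ((k : ℝ) + 2) (Real.log N / Real.log 2), lt_max_of_lt_left hk2, fun a b c ha hb hab hc hw => ?_⟩
    have hc2 : 2 ≤ c := by omega
    have hR2 : (2 : ℝ) ≤ R (a * b * c) := by
      have h0 : a * b * c ≠ 0 := by positivity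
      have h1 : 2 ≤ c.minFac := (Nat.minFac_prime (by omega)).two_le
      have h2 : c.minFac ∣ R (a * b * c) := by
        unfold R
        apply Finset.dvd_prod_of_mem (fun p => p)
        rw [Nat.mem_primeFactors]
        exact ⟨Nat.minFac_prime (by omega), (Nat.minFac_dvd c).trans (dvd_mul_left _ _), h0⟩
      have h3 : 0 < R (a * b * c) := Finset.prod_pos fun p hp => (Nat.prime_of_mem_primeFactors hp).pos
      have h4 : 2 ≤ R (a * b * c) := h1.trans (Nat.le_of_dvd h3 h2)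
      exact_mod_cast h4
    by_cases hcN : (c : ℝ) < N
    · calc (c : ℝ) < N := hcN
        _ = (2 : ℝ) ^ (Real.log N / Real.log 2) := by
            rw [Real.rpow_def_of_pos two_pos, mul_div_cancel₀ _ hlog2.ne', Real.exp_log (by linarith)]
        _ ≤ (R (a * b * c) : ℝ) ^ (Real.log N / Real.log 2) :=
            Real.rpow_le_rpow two_pos.le hR2 (div_nonneg (Real.log_nonneg (by linarith)) hlog2.le)
        _ ≤ _ := Real.rpow_le_rpow_of_exponent_le (by linarith) (le_max_right _ _)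
    · rw [not_lt] at hcN
      obtain ⟨n, hn⟩ := hw
      have hn0 : n1 ≤ n := by
        by_contra hcon
        rw [not_le] at hcon
        have h1 : β * x ^ ν n + x ^ (θ * ν n) ≤ C2 :=
          Finset.single_le_sum (f := fun n => β * x ^ ν n + x ^ (θ * ν n))
            (fun i _ => by positivity) (Finset.mem_range.2 hcon)
        have h2 := (abs_le.1 hn).2
        have h3 : C2 ≤ N - 1 := by
          rw [hN, add_sub_cancel_right]
          exact (le_max_right _ _).trans (le_max_right _ _)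
        linarith
      have hwin : |(c : ℝ) - β * x ^ ν n| ≤ x ^ ((1 - 1 / ((m : ℝ) + 1)) * ν n) := by
        refine hn.trans (Real.rpow_le_rpow_of_exponent_le hx.le ?_)
        apply mul_le_mul_of_nonneg_right _ (hn1 n hn0)
        linarith
      have hR : (c : ℝ) ^ (1 / ((k : ℝ) + 2)) < R (a * b * c) := by
        by_contra hcon
        rw [not_lt] at hcon
        have h1 : ((a, b, c) : ℕ × ℕ × ℕ) ∈ {t : ℕ × ℕ × ℕ | t ∈ Exc 1 (1 / ((k : ℝ) + 2)) ∧
            ∃ n : ℕ, |((t.2.2 : ℕ) : ℝ) - β * x ^ ν n| ≤ x ^ ((1 - 1 / ((m : ℝ) + 1)) * ν n)} :=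
          ⟨⟨ha, hb, hab, hc, by rw [one_mul]; exact hcon⟩, n, hwin⟩
        have h2 : c ≤ C1 := hC1 ⟨_, h1, rfl⟩
        have h3 : (c : ℝ) ≤ C1 := by exact_mod_cast h2
        have h4 : (C1 : ℝ) ≤ N - 1 := by
          rw [hN, add_sub_cancel_right]
          exact (le_max_left _ _).trans (le_max_right _ _)
        linarith
      have h4 := Real.rpow_lt_rpow (Real.rpow_nonneg (Nat.cast_nonneg c) _) hR hk2
      rw [← Real.rpow_mul (Nat.cast_nonneg c), one_div_mul_cancel hk2.ne', Real.rpow_one] at h4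
      exact h4.trans_le (Real.rpow_le_rpow_of_exponent_le (by linarith) (le_max_left _ _))

end Pool.Agent.V11001.KM.Abc
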