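import Pool.Agent.V11001.KM.Family

/-! Families of sets with counts `C X ^ (s + 1 / (j + 1))`: intersections of the exceptional sets. -/

set_option autoImplicit false

open Finset Filter Topology MeasureTheory

namespace Pool.Agent.V11001.KM

open scoped ENNReal NNReal

/-- **Intersections.** For every `q` sets `A q j i`, the `j`-th with at most `C X ^ (s + 1 / (j + 1))` members of height at
most `X`: for all `x > 1` outside a set of dimension at most `s / (1 - θ)` for every `q` there is `j` such that for all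
amplitudes in a countable set and all `i` only finitely many members of `A q j i` have a height within `x ^ (θ λ n)` of
`β x ^ (λ n)` for some `n`. -/
theorem inter_family {T : Type*} {Q J : Type*} [Countable Q] [Countable J] (h : T → ℝ) {lam : ℕ → ℝ} {s θ : ℝ}
    (hlam : Tendsto (fun n : ℕ => lam n / Real.log n) atTop atTop) (hs : 0 ≤ s) (hθ : θ < 1)
    (B : Set ℝ) (hB : B.Countable) (A : Q → ℕ → J → Set T)
    (hA : ∀ (q : Q) (j : ℕ) (i : J), ∃ C : ℝ, ∀ X : ℝ, 1 ≤ X →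
      {t | t ∈ A q j i ∧ h t ≤ X}.Finite ∧ ({t | t ∈ A q j i ∧ h t ≤ X}.ncard : ℝ) ≤ C * X ^ (s + 1 / ((j : ℝ) + 1))) :
    ∃ E : Set ℝ, dimH E ≤ ENNReal.ofReal (s / (1 - θ)) ∧ ∀ x : ℝ, 1 < x → x ∉ E → ∀ q : Q, ∃ j : ℕ,
      ∀ β ∈ B, 0 < β → ∀ i : J, {t | t ∈ A q j i ∧ ∃ n : ℕ, |h t - β * x ^ lam n| ≤ x ^ (θ * lam n)}.Finite := by
  have hall : ∀ (q : Q) (j : ℕ), ∃ E : Set ℝ,
      dimH E ≤ ENNReal.ofReal ((s + 1 / ((j : ℝ) + 1)) / (1 - θ)) ∧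
      ∀ x : ℝ, 1 < x → x ∉ E → ∀ β ∈ B, 0 < β → ∀ i : J,
        {t | t ∈ A q j i ∧ ∃ n : ℕ, |h t - β * x ^ lam n| ≤ x ^ (θ * lam n)}.Finite := by
    intro q j
    refine family h hlam (s := s + 1 / ((j : ℝ) + 1)) (by positivity) hθ B hB (A q j) (fun i ε hε => ?_)
    obtain ⟨C, hC⟩ := hA q j i
    refine ⟨max C 0, fun X hX => ⟨(hC X hX).1, (hC X hX).2.trans ?_⟩⟩
    calc C * X ^ (s + 1 / ((j : ℝ) + 1)) ≤ max C 0 * X ^ (s + 1 / ((j : ℝ) + 1)) :=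
          mul_le_mul_of_nonneg_right (le_max_left _ _) (by positivity)
      _ ≤ max C 0 * X ^ (s + 1 / ((j : ℝ) + 1) + ε) := by
          apply mul_le_mul_of_nonneg_left _ (le_max_right _ _)
          exact Real.rpow_le_rpow_of_exponent_le hX (by linarith)
  choose E hE1 hE2 using hall
  refine ⟨⋃ q, ⋂ j, E q j, ?_, fun x hx hxE q => ?_⟩
  · rw [dimH_iUnion]
    refine iSup_le fun q => ?_
    have hlim : Tendsto (fun j : ℕ => ENNReal.ofReal ((s + 1 / ((j : ℝ) + 1)) / (1 - θ))) atTop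
        (𝓝 (ENNReal.ofReal ((s + 0) / (1 - θ)))) :=
      ENNReal.tendsto_ofReal ((tendsto_one_div_add_atTop_nhds_zero_nat.const_add s).div_const _)
    rw [add_zero] at hlim
    exact ge_of_tendsto' hlim fun j => (dimH_mono (Set.iInter_subset _ j)).trans (hE1 q j)
  · have hxm : x ∉ ⋂ j, E q j := fun g => hxE (Set.mem_iUnion.2 ⟨q, g⟩)
    rw [Set.mem_iInter] at hxm
    push Not at hxm
    obtain ⟨j, hj⟩ := hxm
    exact ⟨j, hE2 q j x hx hj⟩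

/-- finiteness for a smaller exponent, up to finitely many windows -/
lemma finite_of_exponent {T : Type*} (h : T → ℝ) {lam : ℕ → ℝ} {θ θ' β x : ℝ}
    (hlam : Tendsto (fun n : ℕ => lam n / Real.log n) atTop atTop) (hx : 1 < x) (hθ : θ ≤ θ') (A : Set T)
    (hfin : ∀ X : ℝ, 1 ≤ X → {t | t ∈ A ∧ h t ≤ X}.Finite)
    (hA : {t | t ∈ A ∧ ∃ n : ℕ, |h t - β * x ^ lam n| ≤ x ^ (θ' * lam n)}.Finite) :
    {t | t ∈ A ∧ ∃ n : ℕ, |h t - β * x ^ lam n| ≤ x ^ (θ * lam n)}.Finite := by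
  obtain ⟨n1, hn1⟩ := ((tendsto_lam hlam).eventually_ge_atTop 0).exists_forall_of_atTop
  have hfin' : ∀ n : ℕ, {t | t ∈ A ∧ |h t - β * x ^ lam n| ≤ x ^ (θ * lam n)}.Finite := by
    intro n
    refine (hfin (max 1 (β * x ^ lam n + x ^ (θ * lam n))) (le_max_left _ _)).subset ?_
    rintro t ⟨h1, h2⟩
    refine ⟨h1, le_trans ?_ (le_max_right _ _)⟩
    have := (abs_le.1 h2).2
    linarith
  refine (hA.union (Set.Finite.biUnion (Finset.range n1).finite_toSet (fun n _ => hfin' n))).subset ?_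
  rintro t ⟨h1, n, h2⟩
  by_cases hn : n < n1
  · right
    rw [Set.mem_iUnion₂]
    exact ⟨n, by rw [Finset.mem_coe, Finset.mem_range]; exact hn, h1, h2⟩
  · left
    refine ⟨h1, n, h2.trans ?_⟩
    apply Real.rpow_le_rpow_of_exponent_le hx.le
    exact mul_le_mul_of_nonneg_right hθ (hn1 n (not_lt.1 hn))

/-- for almost all bases and all `θ < 1 - s` -/
theorem ae_inter_family {T : Type*} {Q J : Type*} [Countable Q] [Countable J] (h : T → ℝ) {lam : ℕ → ℝ} {s : ℝ}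
    (hlam : Tendsto (fun n : ℕ => lam n / Real.log n) atTop atTop) (hs : 0 ≤ s)
    (B : Set ℝ) (hB : B.Countable) (A : Q → ℕ → J → Set T)
    (hA : ∀ (q : Q) (j : ℕ) (i : J), ∃ C : ℝ, ∀ X : ℝ, 1 ≤ X →
      {t | t ∈ A q j i ∧ h t ≤ X}.Finite ∧ ({t | t ∈ A q j i ∧ h t ≤ X}.ncard : ℝ) ≤ C * X ^ (s + 1 / ((j : ℝ) + 1))) :
    ∀ᵐ x : ℝ, 1 < x → ∀ θ : ℝ, θ < 1 - s → ∀ q : Q, ∃ j : ℕ,
      ∀ β ∈ B, 0 < β → ∀ i : J, {t | t ∈ A q j i ∧ ∃ n : ℕ, |h t - β * x ^ lam n| ≤ x ^ (θ * lam n)}.Finite := by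
  set th : ℕ → ℝ := fun k => 1 - s - 1 / ((k : ℝ) + 1) with hth
  have hth1 : ∀ k, th k < 1 := fun k => by
    have : (0 : ℝ) < 1 / ((k : ℝ) + 1) := by positivity
    simp only [hth]
    linarith
  have hall := fun k : ℕ => inter_family h hlam hs (hth1 k) B hB A hA
  choose E hE1 hE2 using hall
  have hnull : ∀ k, volume (E k) = 0 := by
    intro k
    rw [← hausdorffMeasure_real]
    refine hausdorffMeasure_of_dimH_lt (d := 1) ?_
    refine (hE1 k).trans_lt ?_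
    have h0 : (0 : ℝ) < 1 / ((k : ℝ) + 1) := by positivity
    have g1 : s / (1 - th k) < 1 := by
      simp only [hth]
      rw [div_lt_one (by linarith)]
      linarith
    have g2 := (ENNReal.ofReal_lt_one).2 g1
    simpa using g2
  have hae : ∀ᵐ x : ℝ, ∀ k, x ∉ E k := by
    rw [ae_all_iff]
    intro k
    exact compl_mem_ae_iff.2 (hnull k)
  filter_upwards [hae] with x hx hx1 θ hθ q
  obtain ⟨k, hk⟩ := exists_nat_one_div_lt (sub_pos.2 hθ)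
  obtain ⟨j, hj⟩ := hE2 k x hx1 (hx k) q
  refine ⟨j, fun β hβ hβ0 i => ?_⟩
  obtain ⟨C, hC⟩ := hA q j i
  refine finite_of_exponent h hlam hx1 (θ' := th k) ?_ _ (fun X hX => (hC X hX).1) (hj β hβ hβ0 i)
  simp only [hth]
  linarith

/-- **Dimension zero**, for all `θ < 1` at once. -/
theorem zero_family {T : Type*} {Q J : Type*} [Countable Q] [Countable J] (h : T → ℝ) {lam : ℕ → ℝ}
    (hlam : Tendsto (fun n : ℕ => lam n / Real.log n) atTop atTop)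
    (B : Set ℝ) (hB : B.Countable) (A : Q → ℕ → J → Set T)
    (hA : ∀ (q : Q) (j : ℕ) (i : J), ∃ C : ℝ, ∀ X : ℝ, 1 ≤ X →
      {t | t ∈ A q j i ∧ h t ≤ X}.Finite ∧ ({t | t ∈ A q j i ∧ h t ≤ X}.ncard : ℝ) ≤ C * X ^ (1 / ((j : ℝ) + 1))) :
    ∃ E : Set ℝ, dimH E = 0 ∧ ∀ x : ℝ, 1 < x → x ∉ E → ∀ θ : ℝ, θ < 1 → ∀ q : Q, ∃ j : ℕ,
      ∀ β ∈ B, 0 < β → ∀ i : J, {t | t ∈ A q j i ∧ ∃ n : ℕ, |h t - β * x ^ lam n| ≤ x ^ (θ * lam n)}.Finite := by
  have hθm : ∀ m : ℕ, 1 - 1 / ((m : ℝ) + 1) < 1 := fun m => by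
    have : (0 : ℝ) < 1 / ((m : ℝ) + 1) := by positivity
    linarith
  have hall := fun m : ℕ => inter_family h hlam le_rfl (hθm m) B hB A (by simpa using hA)
  choose E hE1 hE2 using hall
  refine ⟨⋃ m, E m, ?_, fun x hx hxE θ hθ q => ?_⟩
  · rw [dimH_iUnion, ENNReal.iSup_eq_zero]
    intro m
    have := hE1 m
    rw [zero_div, ENNReal.ofReal_zero] at this
    exact le_antisymm this bot_le
  · obtain ⟨m, hm⟩ := exists_nat_one_div_lt (sub_pos.2 hθ)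
    obtain ⟨j, hj⟩ := hE2 m x hx (fun g => hxE (Set.mem_iUnion.2 ⟨m, g⟩)) q
    refine ⟨j, fun β hβ hβ0 i => ?_⟩
    obtain ⟨C, hC⟩ := hA q j i
    exact finite_of_exponent h hlam hx (by linarith) _ (fun X hX => (hC X hX).1) (hj β hβ hβ0 i)

/-- the same with one set for each `q` and every `ε > 0` -/
theorem zero_set {T : Type*} {Q : Type*} [Countable Q] (h : T → ℝ) {lam : ℕ → ℝ}
    (hlam : Tendsto (fun n : ℕ => lam n / Real.log n) atTop atTop)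
    (B : Set ℝ) (hB : B.Countable) (A : Q → Set T)
    (hA : ∀ q : Q, ∀ ε : ℝ, 0 < ε → ∃ C : ℝ, ∀ X : ℝ, 1 ≤ X →
      {t | t ∈ A q ∧ h t ≤ X}.Finite ∧ ({t | t ∈ A q ∧ h t ≤ X}.ncard : ℝ) ≤ C * X ^ ε) :
    ∃ E : Set ℝ, dimH E = 0 ∧ ∀ x : ℝ, 1 < x → x ∉ E → ∀ β ∈ B, 0 < β → ∀ θ : ℝ, θ < 1 → ∀ q : Q,
      {t | t ∈ A q ∧ ∃ n : ℕ, |h t - β * x ^ lam n| ≤ x ^ (θ * lam n)}.Finite := by
  obtain ⟨E, h1, h2⟩ := zero_family (Q := Q) (J := Unit) h hlam B hB (fun q _ _ => A q)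
    (fun q j _ => hA q _ (by positivity))
  refine ⟨E, h1, fun x hx hxE β hβ hβ0 θ hθ q => ?_⟩
  obtain ⟨_, h3⟩ := h2 x hx hxE θ hθ q
  exact h3 β hβ hβ0 ()

end Pool.Agent.V11001.KM
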