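import Pool.Agent.V11001.KM.Family
import Pool.Agent.V11109.WIN.Dyad

/-! Powers of almost every base without exceptional integers nearby, from exceptional sets of dyadic blocks. -/

set_option autoImplicit false

open Finset Filter Topology MeasureTheory

namespace Pool.Agent.V11001.KM

open scoped ENNReal NNReal

/-- no exceptional integers near the powers of almost every base -/
theorem powers_of_bad {ν : ℕ → ℝ} {s θ β : ℝ} (hν : Tendsto (fun n : ℕ => ν n / Real.log n) atTop atTop)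
    (hβ : 0 < β) (hs : 0 < s) (hθ1 : θ < 1) (S : Set ℕ) (bad : ℕ → Finset ℕ) (N₀ : ℕ)
    (hbad : ∀ N : ℕ, N₀ ≤ N → ((bad N).card : ℝ) ≤ (N : ℝ) ^ s) (i₀ : ℕ)
    (hS : ∀ i : ℕ, i₀ ≤ i → ∀ m ∈ S, 2 ^ i < m → m ≤ 2 ^ (i + 1) → m ∈ bad (2 ^ (i + 1))) :
    ∃ E : Set ℝ, dimH E ≤ ENNReal.ofReal (s / (1 - θ)) ∧ ∀ x : ℝ, 1 < x → x ∉ E →
      ∃ n0 : ℕ, ∀ n : ℕ, n0 ≤ n → ∀ m ∈ S, x ^ (θ * ν n) < |(m : ℝ) - β * x ^ ν n| := by
  obtain ⟨K, hK, hcount⟩ := Pool.Agent.V11109.WIN.count_dyadic hs S bad N₀ hbad i₀ hS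
  refine powers S (fun m : ℕ => (m : ℝ)) hν hβ hs.le hθ1 (fun ε hε => ⟨K, fun X hX => ?_⟩)
  obtain ⟨h1, h2⟩ := hcount X hX
  exact ⟨h1, h2.trans (mul_le_mul_of_nonneg_left (Real.rpow_le_rpow_of_exponent_le hX (by linarith)) hK.le)⟩

/-- the integers near the powers are eventually large -/
lemma large_of_near {ν : ℕ → ℝ} {θ β x : ℝ} (hν : Tendsto (fun n : ℕ => ν n / Real.log n) atTop atTop)
    (hβ : 0 < β) (hθ1 : θ < 1) (hx : 1 < x) (M : ℝ) :
    ∃ n0 : ℕ, ∀ n : ℕ, n0 ≤ n → ∀ y : ℝ, |y - β * x ^ ν n| ≤ x ^ (θ * ν n) → M ≤ y := by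
  have hlim : Tendsto (fun n => x ^ ν n) atTop atTop := by
    have h1 : Tendsto (fun n => Real.exp (Real.log x * ν n)) atTop atTop :=
      Real.tendsto_exp_atTop.comp ((tendsto_lam hν).const_mul_atTop (Real.log_pos hx))
    refine h1.congr fun n => ?_
    rw [Real.rpow_def_of_pos (by linarith)]
  have h2 : Tendsto (fun n => (x ^ ν n) ^ (1 - θ)) atTop atTop :=
    (tendsto_rpow_atTop (by linarith : 0 < 1 - θ)).comp hlim
  obtain ⟨n0, hn0⟩ := ((h2.eventually (eventually_ge_atTop (2 / β))).and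
    (hlim.eventually (eventually_ge_atTop (2 * |M| / β)))).exists_forall_of_atTop
  refine ⟨n0, fun n hn y hy => ?_⟩
  obtain ⟨g1, g2⟩ := hn0 n hn
  have hx0 : 0 < x := by linarith
  set z : ℝ := x ^ ν n with hz
  have hz0 : 0 < z := Real.rpow_pos_of_pos hx0 _
  have hw : x ^ (θ * ν n) = z ^ θ := by
    rw [hz, ← Real.rpow_mul hx0.le]
    congr 1
    ring
  rw [hw] at hy
  have h3 : z ^ (1 - θ) * z ^ θ = z := by
    rw [← Real.rpow_add hz0]
    simp
  have hzθ : 0 < z ^ θ := Real.rpow_pos_of_pos hz0 _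
  have h4 : 2 / β * z ^ θ ≤ z := by
    calc 2 / β * z ^ θ ≤ z ^ (1 - θ) * z ^ θ := mul_le_mul_of_nonneg_right g1 hzθ.le
      _ = z := h3
  have h5 : z ^ θ ≤ β * z / 2 := by
    have := mul_le_mul_of_nonneg_left h4 hβ.le
    have h6 : β * (2 / β * z ^ θ) = 2 * z ^ θ := by field_simp
    linarith
  have h7 : |M| ≤ β * z / 2 := by
    rw [div_le_iff₀ hβ] at g2
    linarith
  have h8 := (abs_le.1 hy).1
  have h9 := le_abs_self M
  linarith

end Pool.Agent.V11001.KM
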