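import Pool.Agent.V11001.KM.Near

/-! Real numbers near the powers of almost every base whose integer part is not exceptional. -/

set_option autoImplicit false

open Filter Topology MeasureTheory

namespace Pool.Agent.V11001.KM

/-- outside of a set of dimension at most `s / (1 - θ)` -/
theorem real_powers (S : Set ℕ) {ν : ℕ → ℝ} {s θ : ℝ} (hν : Fast ν) (hs : 0 ≤ s) (hθ0 : 0 ≤ θ) (hθ1 : θ < 1)
    (hS : ∀ ε : ℝ, 0 < ε → ∃ C : ℝ, ∀ X : ℝ, 1 ≤ X →
      {t : ℕ | t ∈ S ∧ (t : ℝ) ≤ X}.Finite ∧ ({t : ℕ | t ∈ S ∧ (t : ℝ) ≤ X}.ncard : ℝ) ≤ C * X ^ (s + ε))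
    (B : Set ℝ) (hB : B.Countable) :
    ∃ E : Set ℝ, dimH E ≤ ENNReal.ofReal (s / (1 - θ)) ∧ ∀ x : ℝ, 1 < x → x ∉ E → ∀ β ∈ B, 0 < β →
      ∃ n0 : ℕ, ∀ n : ℕ, n0 ≤ n → ∀ y : ℝ, 0 ≤ y → |y - β * x ^ ν n| ≤ x ^ (θ * ν n) → ⌊y⌋₊ ∉ S := by
  have h1θ : 0 < 1 - θ := by linarith
  set θ' : ℕ → ℝ := fun k => θ + (1 - θ) * (1 / ((k : ℝ) + 2)) with hθ'
  have hk1 : ∀ k : ℕ, 1 / ((k : ℝ) + 2) < 1 := by
    intro k
    rw [div_lt_one (by positivity)]
    have : (0 : ℝ) ≤ k := Nat.cast_nonneg k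
    linarith
  have hθ'1 : ∀ k, θ' k < 1 := by
    intro k
    have h2 := mul_lt_mul_of_pos_left (hk1 k) h1θ
    have h3 : θ' k = θ + (1 - θ) * (1 / ((k : ℝ) + 2)) := rfl
    linarith
  have hθ'0 : ∀ k, θ < θ' k := by
    intro k
    have h2 : 0 < (1 - θ) * (1 / ((k : ℝ) + 2)) := by positivity
    have h3 : θ' k = θ + (1 - θ) * (1 / ((k : ℝ) + 2)) := rfl
    linarith
  have hc : Countable B := hB.to_subtype
  have hall := fun (b : {β : B // 0 < (β : ℝ)}) (k : ℕ) =>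
    powers (T := ℕ) S (fun t => (t : ℝ)) hν b.2 hs (hθ'1 k) hS
  choose E hE1 hE2 using hall
  refine ⟨⋃ b, ⋂ k, E b k, ?_, fun x hx hxE β hβ hβ0 => ?_⟩
  · rw [dimH_iUnion]
    refine iSup_le fun b => ?_
    have h1 : ∀ k : ℕ, dimH (⋂ k, E b k) ≤ ENNReal.ofReal (s / (1 - θ' k)) := fun k =>
      (dimH_mono (Set.iInter_subset _ k)).trans (hE1 b k)
    have h2 : Tendsto (fun k : ℕ => ENNReal.ofReal (s / (1 - θ' k))) atTop
        (𝓝 (ENNReal.ofReal (s / (1 - (θ + (1 - θ) * 0))))) := by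
      apply ENNReal.tendsto_ofReal
      have h3 : Tendsto (fun k : ℕ => 1 / ((k : ℝ) + 2)) atTop (𝓝 0) := by
        have h4 := (tendsto_one_div_add_atTop_nhds_zero_nat (𝕜 := ℝ)).comp (tendsto_add_atTop_nat 1)
        refine h4.congr (fun k => ?_)
        simp only [Function.comp_apply]
        push_cast
        ring
      refine Tendsto.div tendsto_const_nhds (tendsto_const_nhds.sub ((h3.const_mul (1 - θ)).const_add θ)) ?_
      rw [mul_zero, add_zero]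
      exact h1θ.ne'
    rw [mul_zero, add_zero] at h2
    exact ge_of_tendsto' h2 h1
  · have hxm : x ∉ ⋂ k, E ⟨⟨β, hβ⟩, hβ0⟩ k := fun g => hxE (Set.mem_iUnion.2 ⟨_, g⟩)
    rw [Set.mem_iInter] at hxm
    push Not at hxm
    obtain ⟨k, hk⟩ := hxm
    obtain ⟨n0, hn0⟩ := hE2 ⟨⟨β, hβ⟩, hβ0⟩ k x hx hk
    have hlim : Tendsto (fun n => x ^ ((θ' k - θ) * ν n)) atTop atTop := by
      have h1 : Tendsto (fun n => Real.exp (Real.log x * ((θ' k - θ) * ν n))) atTop atTop :=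
        Real.tendsto_exp_atTop.comp (((tendsto_lam hν).const_mul_atTop (by linarith [hθ'0 k])).const_mul_atTop
          (Real.log_pos hx))
      refine h1.congr fun n => ?_
      rw [Real.rpow_def_of_pos (by linarith)]
    obtain ⟨n1, hn1⟩ := ((hlim.eventually_ge_atTop 2).and
      ((tendsto_lam hν).eventually_ge_atTop 0)).exists_forall_of_atTop
    refine ⟨max n0 n1, fun n hn y hy0 hy hcon => ?_⟩
    obtain ⟨g1, g2⟩ := hn1 n ((le_max_right _ _).trans hn)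
    have h4 := hn0 n ((le_max_left _ _).trans hn) _ hcon
    have hx0 : 0 < x := by linarith
    have h5 : 1 ≤ x ^ (θ * ν n) := Real.one_le_rpow hx.le (mul_nonneg hθ0 g2)
    have h6 : x ^ (θ' k * ν n) = x ^ (θ * ν n) * x ^ ((θ' k - θ) * ν n) := by
      rw [← Real.rpow_add hx0]
      congr 1
      ring
    have h7 : x ^ (θ * ν n) * 2 ≤ x ^ (θ' k * ν n) := by
      rw [h6]
      exact mul_le_mul_of_nonneg_left g1 (by linarith)
    have h8 : |((⌊y⌋₊ : ℕ) : ℝ) - β * x ^ ν n| ≤ x ^ (θ * ν n) + 1 := by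
      have h9 := Nat.floor_le hy0
      have h10 := Nat.lt_floor_add_one y
      obtain ⟨h11, h12⟩ := abs_le.1 hy
      rw [abs_le]
      constructor <;> linarith
    linarith

end Pool.Agent.V11001.KM
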